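import Mathlib

/-!
# Finite perfect centreless groups that are much larger than their conjugacy classes

For every `k` there is a finite perfect group `G` with trivial centre such that the `k`-th power
of the size of every conjugacy class of `G` is smaller than the order of `G`.
The group is generated by transvections over the field with two elements.
-/

namespace Pool.Agent.Results.MP_606b74_al.LargePerfectGroups

open Matrix
open scoped commutatorElement

/-- Indices: four blocks of sizes `3, n, 3, n`. -/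
abbrev Idx (n : ℕ) : Type := Fin 3 ⊕ (Fin n ⊕ (Fin 3 ⊕ Fin n))

variable {n : ℕ}

/-- The number of the block. -/
def lvl : Idx n → ℕ :=
  Sum.elim (fun _ => 0) (Sum.elim (fun _ => 1) (Sum.elim (fun _ => 2) (fun _ => 3)))

/-- The positions at which our matrices may differ from the identity matrix. -/
def Allowed (i j : Idx n) : Prop := lvl i = 0 ∨ (lvl i ≤ 2 ∧ 2 ≤ lvl j)

lemma Allowed.trans {i j l : Idx n} (h1 : Allowed i l) (h2 : Allowed l j) : Allowed i j := by
  unfold Allowed at *
  omega

abbrev Mat (n : ℕ) : Type := Matrix (Idx n) (Idx n) (ZMod 2)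

/-- `g` agrees with the identity outside the allowed positions. -/
def Shape (g : Mat n) : Prop := ∀ i j, ¬ Allowed i j → g i j = (1 : Mat n) i j

lemma shape_one : Shape (1 : Mat n) := fun _ _ _ => rfl

lemma Shape.mul {g h : Mat n} (hg : Shape g) (hh : Shape h) : Shape (g * h) := by
  intro i j hij
  have h1 : g * h = 1 + ((g - 1) + (h - 1) + (g - 1) * (h - 1)) := by noncomm_ring
  rw [h1, Matrix.add_apply, Matrix.add_apply, Matrix.add_apply, Matrix.mul_apply,
    Matrix.sub_apply, Matrix.sub_apply, hg i j hij, hh i j hij]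
  rw [Finset.sum_eq_zero]
  · simp
  · intro l _
    by_cases hil : Allowed i l
    · have hlj : ¬ Allowed l j := fun h => hij (hil.trans h)
      rw [Matrix.sub_apply h 1 l j, hh l j hlj]; simp
    · rw [Matrix.sub_apply g 1 i l, hg i l hil]; simp

/-- The ambient group of invertible matrices of the right shape. -/
def Big (n : ℕ) : Subgroup (Mat n)ˣ where
  carrier := {g | Shape g.val ∧ Shape g⁻¹.val}
  one_mem' := ⟨shape_one, by rw [inv_one]; exact shape_one⟩
  mul_mem' := by
    rintro a b ⟨ha, ha'⟩ ⟨hb, hb'⟩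
    refine ⟨ha.mul hb, ?_⟩
    rw [_root_.mul_inv_rev]
    exact hb'.mul ha'
  inv_mem' := by
    rintro a ⟨ha, ha'⟩
    exact ⟨ha', by rwa [inv_inv]⟩

/-- The matrix unit at position `(i, j)`. -/
abbrev e (i j : Idx n) : Mat n := Matrix.single i j 1

lemma two_eq_zero' (a : Mat n) : a + a = 0 := by
  ext i j
  rw [Matrix.add_apply]
  exact CharTwo.add_self_eq_zero _

/-- `1 + e i j` as an invertible matrix. -/
def E (i j : Idx n) (h : i ≠ j) : (Mat n)ˣ where
  val := 1 + e i j
  inv := 1 + e i j
  val_inv := by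
    have : e i j * e i j = 0 := Matrix.single_mul_single_of_ne _ _ _ _ h.symm _
    rw [add_mul, mul_add, mul_add, one_mul, mul_one, one_mul, this, add_zero, add_assoc,
      two_eq_zero', add_zero]
  inv_val := by
    have : e i j * e i j = 0 := Matrix.single_mul_single_of_ne _ _ _ _ h.symm _
    rw [add_mul, mul_add, mul_add, one_mul, mul_one, one_mul, this, add_zero, add_assoc,
      two_eq_zero', add_zero]

/-- The generating transvections. -/
def gens (n : ℕ) : Set (Mat n)ˣ := {g | ∃ (i j : Idx n) (h : i ≠ j), Allowed i j ∧ g = E i j h}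

/-- The group. -/
def G (n : ℕ) : Subgroup (Mat n)ˣ := Subgroup.closure (gens n)

lemma shape_E (i j : Idx n) (hij : Allowed i j) : Shape (1 + e i j) := by
  intro k l hkl
  have : ¬ (i = k ∧ j = l) := by
    rintro ⟨rfl, rfl⟩; exact hkl hij
  have h0 : e i j k l = 0 := by
    unfold e
    rw [Matrix.single_apply, if_neg this]
  show (1 : Mat n) k l + e i j k l = (1 : Mat n) k l
  rw [h0, add_zero]

lemma G_le_Big : G n ≤ Big n := by
  rw [G, Subgroup.closure_le]
  rintro g ⟨i, j, h, hij, rfl⟩
  exact ⟨shape_E i j hij, shape_E i j hij⟩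

lemma E_mem (i j : Idx n) (h : i ≠ j) (hij : Allowed i j) : E i j h ∈ G n :=
  Subgroup.subset_closure ⟨i, j, h, hij, rfl⟩

lemma E_comm (i l j : Idx n) (hil : i ≠ l) (hlj : l ≠ j) (hij : i ≠ j) :
    ⁅E i l hil, E l j hlj⁆ = E i j hij := by
  apply Units.ext
  show (1 + e i l) * (1 + e l j) * (1 + e i l) * (1 + e l j) = 1 + e i j
  have h1 : e i l * e l j = e i j := by
    simp [e]
  have h2 : e i l * e i l = 0 := Matrix.single_mul_single_of_ne _ _ _ _ hil.symm _
  have h3 : e l j * e l j = 0 := Matrix.single_mul_single_of_ne _ _ _ _ hlj.symm _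
  have h4 : e l j * e i l = 0 := Matrix.single_mul_single_of_ne _ _ _ _ hij.symm _
  have h5 : e i j * e i l = 0 := Matrix.single_mul_single_of_ne _ _ _ _ hij.symm _
  have h6 : e i j * e l j = 0 := Matrix.single_mul_single_of_ne _ _ _ _ hlj.symm _
  have e1 : (1 + e i l) * (1 + e l j) = 1 + e i l + e l j + e i j := by
    rw [mul_add, mul_one, add_mul, one_mul, h1]; abel
  have e2 : (1 + e i l + e l j + e i j) * (1 + e i l) = 1 + e l j + e i j + (e i l + e i l) := by
    simp only [mul_add, add_mul, mul_one, one_mul, h2, h4, h5, add_zero]; abel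
  have e3 : (1 + e l j + e i j) * (1 + e l j) = 1 + e i j + (e l j + e l j) := by
    simp only [mul_add, add_mul, mul_one, one_mul, h3, h6, add_zero]; abel
  rw [e1, e2, two_eq_zero', add_zero, e3, two_eq_zero', add_zero]

/-- An index of block `0` different from two given ones. -/
lemma exists_lvl0 (i j : Idx n) : ∃ l : Idx n, lvl l = 0 ∧ i ≠ l ∧ l ≠ j := by
  have h3 : ∀ x y : Option (Fin 3), ∃ a : Fin 3, x ≠ some a ∧ y ≠ some a := by decide
  obtain ⟨a, ha, hb⟩ := h3 (i.elim some (fun _ => none)) (j.elim some (fun _ => none))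
  refine ⟨Sum.inl a, rfl, ?_, ?_⟩
  · rintro rfl; exact ha rfl
  · rintro rfl; exact hb rfl

/-- An index of block `2` different from two given ones. -/
lemma exists_lvl2 (i j : Idx n) : ∃ l : Idx n, lvl l = 2 ∧ i ≠ l ∧ l ≠ j := by
  have h3 : ∀ x y : Option (Fin 3), ∃ a : Fin 3, x ≠ some a ∧ y ≠ some a := by decide
  let f : Idx n → Option (Fin 3) := Sum.elim (fun _ => none) (Sum.elim (fun _ => none)
    (Sum.elim some (fun _ => none)))
  obtain ⟨a, ha, hb⟩ := h3 (f i) (f j)
  refine ⟨Sum.inr (Sum.inr (Sum.inl a)), rfl, ?_, ?_⟩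
  · rintro rfl; exact ha rfl
  · rintro rfl; exact hb rfl

/-- Every generator is a commutator of two generators. -/
lemma E_eq_comm (i j : Idx n) (h : i ≠ j) (hij : Allowed i j) :
    ∃ a ∈ gens n, ∃ b ∈ gens n, ⁅a, b⁆ = E i j h := by
  by_cases h0 : lvl i = 0
  · obtain ⟨l, hl, hil, hlj⟩ := exists_lvl0 i j
    exact ⟨E i l hil, ⟨i, l, hil, Or.inl h0, rfl⟩, E l j hlj, ⟨l, j, hlj, Or.inl hl, rfl⟩,
      E_comm i l j hil hlj h⟩
  · have h2 : lvl i ≤ 2 ∧ 2 ≤ lvl j := by
      unfold Allowed at hij; omega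
    obtain ⟨l, hl, hil, hlj⟩ := exists_lvl2 i j
    exact ⟨E i l hil, ⟨i, l, hil, Or.inr ⟨h2.1, by omega⟩, rfl⟩, E l j hlj,
      ⟨l, j, hlj, Or.inr ⟨by omega, h2.2⟩, rfl⟩, E_comm i l j hil hlj h⟩

lemma G_le_comm : G n ≤ ⁅G n, G n⁆ := by
  rw [G, Subgroup.closure_le]
  rintro g ⟨i, j, h, hij, rfl⟩
  obtain ⟨a, ha, b, hb, hab⟩ := E_eq_comm i j h hij
  rw [← hab]
  exact Subgroup.commutator_mem_commutator (Subgroup.subset_closure ha)
    (Subgroup.subset_closure hb)

lemma G_perfect : commutator (G n) = ⊤ := by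
  have h1 : (commutator (G n)).map (G n).subtype = ⁅G n, G n⁆ := by
    rw [commutator_def, Subgroup.map_commutator, ← MonoidHom.range_eq_map,
      Subgroup.range_subtype]
  rw [eq_top_iff]
  intro x _
  have h2 : (x : (Mat n)ˣ) ∈ (commutator (G n)).map (G n).subtype := by
    rw [h1]; exact G_le_comm x.2
  obtain ⟨y, hy, hyx⟩ := h2
  have : y = x := Subtype.ext hyx
  rwa [← this]

lemma shape_of_mem {g : (Mat n)ˣ} (hg : g ∈ G n) : Shape g.val := (G_le_Big hg).1

/-- An element of the shape commuting with all generators is trivial. -/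
lemma central_eq_one (hn : 0 < n) (z : (Mat n)ˣ) (hz : Shape z.val)
    (hc : ∀ (i j : Idx n) (h : i ≠ j), Allowed i j → z * E i j h = E i j h * z) : z = 1 := by
  have key : ∀ (i j : Idx n), i ≠ j → Allowed i j →
      (∀ l, l ≠ j → z.val j l = 0) ∧ z.val i i = z.val j j := by
    intro i j h hij
    have h1 := congrArg Units.val (hc i j h hij)
    have h2 : z.val * e i j = e i j * z.val := by
      have h3 : z.val * (1 + e i j) = (1 + e i j) * z.val := h1
      rw [mul_add, add_mul, mul_one, one_mul] at h3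
      exact add_left_cancel h3
    constructor
    · intro l hl
      have h4 := congrFun (congrFun h2 i) l
      rw [Matrix.mul_single_apply_of_ne _ _ _ _ _ hl, Matrix.single_mul_apply_same] at h4
      simpa using h4.symm
    · have h4 := congrFun (congrFun h2 i) j
      rw [Matrix.mul_single_apply_same, Matrix.single_mul_apply_same] at h4
      simpa using h4
  let m : Idx n := Sum.inr (Sum.inr (Sum.inr ⟨0, hn⟩))
  apply Units.ext
  ext i j
  by_cases hij : i = j
  · subst hij
    by_cases hj : lvl i ≤ 2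
    · have hjm : i ≠ m := by
        rintro rfl
        have : lvl m = 3 := rfl
        omega
      have hA : Allowed i m := Or.inr ⟨hj, by show 2 ≤ 3; omega⟩
      rw [(key i m hjm hA).2, hz m m (by unfold Allowed; show ¬ (3 = 0 ∨ 3 ≤ 2 ∧ 2 ≤ 3); omega)]
      simp
    · rw [hz i i (by unfold Allowed; omega)]
      simp
  · obtain ⟨l, hl, hil, _⟩ := exists_lvl0 i i
    rw [(key l i hil.symm (Or.inl hl)).1 j (Ne.symm hij), Units.val_one, Matrix.one_apply_ne hij]

lemma G_center (hn : 0 < n) : Subgroup.center (G n) = ⊥ := by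
  rw [eq_bot_iff]
  intro z hz
  rw [Subgroup.mem_center_iff] at hz
  rw [Subgroup.mem_bot]
  apply Subtype.ext
  apply central_eq_one hn _ (shape_of_mem z.2)
  intro i j h hij
  exact (congrArg Subtype.val (hz ⟨E i j h, E_mem i j h hij⟩)).symm

/-- An `n × n` matrix placed in the block with rows of block `1` and columns of block `3`. -/
def emb (Y : Matrix (Fin n) (Fin n) (ZMod 2)) : Mat n := fun i j =>
  Sum.elim (fun _ => 0) (Sum.elim (fun a => Sum.elim (fun _ => 0) (Sum.elim (fun _ => 0)
    (Sum.elim (fun _ => 0) (fun b => Y a b))) j) (fun _ => 0)) i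

lemma emb_add (Y Z : Matrix (Fin n) (Fin n) (ZMod 2)) : emb (Y + Z) = emb Y + emb Z := by
  ext i j
  rw [Matrix.add_apply]
  rcases i with i | i | i | i <;> rcases j with j | j | j | j <;> simp [emb]

lemma emb_mul (Y Z : Matrix (Fin n) (Fin n) (ZMod 2)) : emb Y * emb Z = 0 := by
  ext i j
  rw [Matrix.mul_apply, Matrix.zero_apply]
  apply Finset.sum_eq_zero
  intro l _
  rcases i with i | i | i | i <;> rcases l with l | l | l | l <;> simp [emb]

lemma emb_single (a b : Fin n) :
    emb (Matrix.single a b (1 : ZMod 2)) =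
      e (Sum.inr (Sum.inl a)) (Sum.inr (Sum.inr (Sum.inr b))) := by
  ext i j
  rcases i with i | i | i | i <;> rcases j with j | j | j | j <;>
    simp [emb, e, Matrix.single_apply]

/-- The unipotent element `1 + emb Y`. -/
def U (Y : Matrix (Fin n) (Fin n) (ZMod 2)) : (Mat n)ˣ where
  val := 1 + emb Y
  inv := 1 + emb Y
  val_inv := by
    rw [add_mul, mul_add, mul_add, one_mul, mul_one, one_mul, emb_mul, add_zero, add_assoc,
      two_eq_zero', add_zero]
  inv_val := by
    rw [add_mul, mul_add, mul_add, one_mul, mul_one, one_mul, emb_mul, add_zero, add_assoc,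
      two_eq_zero', add_zero]

lemma U_add (Y Z : Matrix (Fin n) (Fin n) (ZMod 2)) : U (Y + Z) = U Y * U Z := by
  apply Units.ext
  show 1 + emb (Y + Z) = (1 + emb Y) * (1 + emb Z)
  rw [add_mul, mul_add, mul_add, one_mul, mul_one, one_mul, emb_mul, add_zero, emb_add]
  abel

lemma U_mem (Y : Matrix (Fin n) (Fin n) (ZMod 2)) : U Y ∈ G n := by
  induction Y using Matrix.induction_on' with
  | h_zero =>
    have : U (0 : Matrix (Fin n) (Fin n) (ZMod 2)) = 1 := by
      apply Units.ext
      show 1 + emb 0 = 1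
      have : emb (0 : Matrix (Fin n) (Fin n) (ZMod 2)) = 0 := by
        ext i j
        rcases i with i | i | i | i <;> rcases j with j | j | j | j <;> simp [emb]
      rw [this, add_zero]
    rw [this]; exact one_mem _
  | h_add p q hp hq => rw [U_add]; exact mul_mem hp hq
  | h_std_basis a b x =>
    have hx : x = 0 ∨ x = 1 := by revert x; decide
    rcases hx with rfl | rfl
    · have : U (Matrix.single a b (0 : ZMod 2)) = 1 := by
        apply Units.ext
        show 1 + emb _ = 1
        have : emb (Matrix.single a b (0 : ZMod 2)) = 0 := by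
          ext i j
          rcases i with i | i | i | i <;> rcases j with j | j | j | j <;> simp [emb]
        rw [this, add_zero]
      rw [this]; exact one_mem _
    · have hne : (Sum.inr (Sum.inl a) : Idx n) ≠ Sum.inr (Sum.inr (Sum.inr b)) := by simp
      have : U (Matrix.single a b (1 : ZMod 2)) = E _ _ hne := by
        apply Units.ext
        show 1 + emb _ = 1 + e _ _
        rw [emb_single]
      rw [this]
      exact E_mem _ _ hne (Or.inr ⟨by show 1 ≤ 2; omega, by show 2 ≤ 3; omega⟩)

lemma U_injective : Function.Injective (U : Matrix (Fin n) (Fin n) (ZMod 2) → (Mat n)ˣ) := by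
  intro Y Z h
  have h1 : 1 + emb Y = 1 + emb Z := congrArg Units.val h
  have h2 := add_left_cancel h1
  ext a b
  exact congrFun (congrFun h2 (Sum.inr (Sum.inl a))) (Sum.inr (Sum.inr (Sum.inr b)))

lemma card_G : 2 ^ (n * n) ≤ Nat.card (G n) := by
  have h1 : Nat.card (Matrix (Fin n) (Fin n) (ZMod 2)) = 2 ^ (n * n) := by
    show Nat.card (Fin n → Fin n → ZMod 2) = 2 ^ (n * n)
    rw [Nat.card_eq_fintype_card, Fintype.card_fun, Fintype.card_fun, Fintype.card_fin,
      ZMod.card, ← pow_mul]
  rw [← h1]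
  apply Nat.card_le_card_of_injective (fun Y => (⟨U Y, U_mem Y⟩ : G n))
  intro Y Z h
  exact U_injective (congrArg Subtype.val h)

/-- The key rigidity statement: a conjugate `g x g⁻¹` is determined by few rows and columns. -/
lemma conj_determined (x g g' : (Mat n)ˣ) (hx : x ∈ G n) (hg : g ∈ G n) (hg' : g' ∈ G n)
    (h1 : ∀ (a : Fin 3) j, g.val (Sum.inl a) j = g'.val (Sum.inl a) j)
    (h2 : ∀ i (c : Fin 3), g.val i (Sum.inr (Sum.inr (Sum.inl c))) =
      g'.val i (Sum.inr (Sum.inr (Sum.inl c))))
    (h3 : ∀ (c : Fin 3) j, g.val (Sum.inr (Sum.inr (Sum.inl c))) j =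
      g'.val (Sum.inr (Sum.inr (Sum.inl c))) j)
    (h4 : ∀ (a : Fin 3) j, (g * x * g⁻¹).val (Sum.inl a) j = (g' * x * g'⁻¹).val (Sum.inl a) j) :
    g * x * g⁻¹ = g' * x * g'⁻¹ := by
  set y := g * x * g⁻¹ with hy
  set y' := g' * x * g'⁻¹ with hy'
  have sx := shape_of_mem hx
  have sg := shape_of_mem hg
  have sg' := shape_of_mem hg'
  have sy' : Shape y'.val := shape_of_mem (mul_mem (mul_mem hg' hx) (inv_mem hg'))
  have e1 : y.val * g.val = g.val * x.val := by
    rw [← Units.val_mul, ← Units.val_mul, hy, inv_mul_cancel_right]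
  have e2 : y'.val * g'.val = g'.val * x.val := by
    rw [← Units.val_mul, ← Units.val_mul, hy', inv_mul_cancel_right]
  set Δ : Mat n := g'.val - g.val with hΔ
  have hg'Δ : g'.val = g.val + Δ := by rw [hΔ]; abel
  have hsupp : ∀ i j, ¬ (lvl i = 1 ∧ lvl j = 3) → Δ i j = 0 := by
    intro i j hij
    rw [hΔ, Matrix.sub_apply, sub_eq_zero]
    rcases i with i | i | i | i
    · exact (h1 i j).symm
    · rcases j with j | j | j | j
      · have hna : ¬ Allowed (Sum.inr (Sum.inl i) : Idx n) (Sum.inl j) := by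
          unfold Allowed; show ¬ (1 = 0 ∨ 1 ≤ 2 ∧ 2 ≤ 0); omega
        rw [sg _ _ hna, sg' _ _ hna]
      · have hna : ¬ Allowed (Sum.inr (Sum.inl i) : Idx n) (Sum.inr (Sum.inl j)) := by
          unfold Allowed; show ¬ (1 = 0 ∨ 1 ≤ 2 ∧ 2 ≤ 1); omega
        rw [sg _ _ hna, sg' _ _ hna]
      · exact (h2 _ j).symm
      · exact absurd ⟨rfl, rfl⟩ hij
    · exact (h3 i j).symm
    · have hna : ¬ Allowed (Sum.inr (Sum.inr (Sum.inr i)) : Idx n) j := by
        unfold Allowed; show ¬ (3 = 0 ∨ 3 ≤ 2 ∧ 2 ≤ lvl j); omega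
      rw [sg _ _ hna, sg' _ _ hna]
  have hΔx : Δ * x.val = Δ := by
    ext i j
    have : (Δ * x.val) i j = (Δ * 1) i j := by
      rw [Matrix.mul_apply, Matrix.mul_apply]
      apply Finset.sum_congr rfl
      intro l _
      by_cases hl : lvl l = 3
      · rw [sx l j (by unfold Allowed; omega)]
      · rw [hsupp i l (by omega), zero_mul, zero_mul]
    rw [this, mul_one]
  have hyΔ : ∀ i j, lvl i ≠ 0 → (y'.val * Δ) i j = Δ i j := by
    intro i j hi
    have : (y'.val * Δ) i j = (1 * Δ) i j := by
      rw [Matrix.mul_apply, Matrix.mul_apply]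
      apply Finset.sum_congr rfl
      intro l _
      by_cases hl : lvl l = 1
      · rw [sy' i l (by unfold Allowed; omega)]
      · rw [hsupp l j (by omega), mul_zero, mul_zero]
    rw [this, one_mul]
  have hD : ∀ i j, lvl i ≠ 0 → ((y'.val - y.val) * g.val) i j = 0 := by
    intro i j hi
    have h5 : y'.val * g.val + y'.val * Δ = y.val * g.val + Δ := by
      rw [← mul_add, ← hg'Δ, e2, hg'Δ, add_mul, hΔx, e1]
    have h6 := congrFun (congrFun h5 i) j
    rw [Matrix.add_apply, Matrix.add_apply, hyΔ i j hi] at h6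
    have h7 := add_right_cancel h6
    rw [sub_mul, Matrix.sub_apply, h7, sub_self]
  apply Units.ext
  ext i j
  by_cases hi : lvl i = 0
  · rcases i with i | i | i | i
    · exact h4 i j
    · exact absurd hi (by show ¬ (1 = 0); omega)
    · exact absurd hi (by show ¬ (2 = 0); omega)
    · exact absurd hi (by show ¬ (3 = 0); omega)
  · have h8 : y'.val - y.val = ((y'.val - y.val) * g.val) * g⁻¹.val := by
      rw [mul_assoc, Units.mul_inv, mul_one]
    have h9 : (y'.val - y.val) i j = 0 := by
      rw [h8, Matrix.mul_apply]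
      apply Finset.sum_eq_zero
      intro l _
      rw [hD i l hi, zero_mul]
    rw [Matrix.sub_apply, sub_eq_zero] at h9
    exact h9.symm

/-- The data that determine a conjugate. -/
abbrev Dat (n : ℕ) : Type := ((Fin 3 → Idx n → ZMod 2) × (Idx n → Fin 3 → ZMod 2)) ×
    ((Fin 3 → Idx n → ZMod 2) × (Fin 3 → Idx n → ZMod 2))

lemma finite_dat (n : ℕ) : Finite (Dat n) := by
  have h1 : Finite (Fin 3 → Idx n → ZMod 2) := inferInstance
  have h2 : Finite (Idx n → Fin 3 → ZMod 2) := inferInstance
  have h3 : Finite ((Fin 3 → Idx n → ZMod 2) × (Idx n → Fin 3 → ZMod 2)) := Finite.instProd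
  have h4 : Finite ((Fin 3 → Idx n → ZMod 2) × (Fin 3 → Idx n → ZMod 2)) := Finite.instProd
  exact Finite.instProd

lemma card_dat (n : ℕ) : Nat.card (Dat n) = 2 ^ (24 * n + 72) := by
  have hI : Nat.card (Idx n) = 2 * n + 6 := by
    rw [Nat.card_eq_fintype_card]
    simp only [Idx, Fintype.card_sum, Fintype.card_fin]; ring
  have h3 : Nat.card (Fin 3) = 3 := by simp
  have h2 : Nat.card (ZMod 2) = 2 := by simp
  rw [Nat.card_prod, Nat.card_prod, Nat.card_prod]
  simp only [Nat.card_fun, hI, h3, h2]
  rw [← pow_mul, ← pow_mul, ← pow_add, ← pow_add, ← pow_add]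
  congr 1
  ring

/-- A bound for the size of conjugacy classes. -/
lemma card_class (x : G n) : Nat.card (conjugatesOf x) ≤ 2 ^ (24 * n + 72) := by
  classical
  have hch : ∀ y : conjugatesOf x, ∃ g : G n, g * x * g⁻¹ = y.1 := fun y => isConj_iff.1 y.2
  choose f hf using hch
  let F : conjugatesOf x → Dat n := fun y =>
    ((fun a j => (f y).1.val (Sum.inl a) j,
      fun i c => (f y).1.val i (Sum.inr (Sum.inr (Sum.inl c)))),
     (fun c j => (f y).1.val (Sum.inr (Sum.inr (Sum.inl c))) j,
      fun a j => y.1.1.val (Sum.inl a) j))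
  have hF : Function.Injective F := by
    intro y z hyz
    have hy : (f y).1 * x.1 * (f y).1⁻¹ = y.1.1 := congrArg Subtype.val (hf y)
    have hz : (f z).1 * x.1 * (f z).1⁻¹ = z.1.1 := congrArg Subtype.val (hf z)
    have h1 := congrArg (fun d => d.1.1) hyz
    have h2 := congrArg (fun d => d.1.2) hyz
    have h3 := congrArg (fun d => d.2.1) hyz
    have h4 := congrArg (fun d => d.2.2) hyz
    apply Subtype.ext
    apply Subtype.ext
    rw [← hy, ← hz]
    apply conj_determined _ _ _ x.2 (f y).2 (f z).2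
    · intro a j; exact congrFun (congrFun h1 a) j
    · intro i c; exact congrFun (congrFun h2 i) c
    · intro c j; exact congrFun (congrFun h3 c) j
    · intro a j; rw [hy, hz]; exact congrFun (congrFun h4 a) j
  rw [← card_dat]
  have := finite_dat n
  exact Nat.card_le_card_of_injective F hF

/-- **Disproof of the conjecture of Neumann and Vaughan-Lee, in a strong form.**
For every `k` there is a finite perfect group with trivial centre in which the `k`-th power of
the size of every conjugacy class is smaller than the order of the group. -/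
theorem result :
    ∀ k : ℕ, ∃ (G : Type) (_ : Group G) (_ : Finite G),
      commutator G = ⊤ ∧ Subgroup.center G = ⊥ ∧
      ∀ x : G, (Nat.card (conjugatesOf x)) ^ k < Nat.card G := by
  intro k
  refine ⟨G (30 * (k + 1)), inferInstance, inferInstance, G_perfect, G_center (by omega), ?_⟩
  intro x
  have h1 := card_class x
  have h2 := card_G (n := 30 * (k + 1))
  calc (Nat.card (conjugatesOf x)) ^ k
      ≤ (2 ^ (24 * (30 * (k + 1)) + 72)) ^ k := Nat.pow_le_pow_left h1 k
    _ = 2 ^ ((24 * (30 * (k + 1)) + 72) * k) := by rw [← pow_mul]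
    _ < 2 ^ (30 * (k + 1) * (30 * (k + 1))) := by
        apply Nat.pow_lt_pow_right (by norm_num)
        nlinarith
    _ ≤ Nat.card (G (30 * (k + 1))) := h2

end Pool.Agent.Results.MP_606b74_al.LargePerfectGroups
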